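import Pool.Agent.Helper33.Iso.Goals

/-!
# The gap of a free orthogonal action
-/

set_option autoImplicit false

open Topology unitInterval RealInnerProductSpace
open Pool.Agent.Helper72.Orb

namespace Pool.Agent.Helper45.Iso

universe u w

theorem gap_one (H : Type u) [Group H] (V : Type w) [NormedAddCommGroup V]
    [InnerProductSpace ℝ V] [FiniteDimensional ℝ V] [MulAction H V]
    (hV : IsOrthogonalAction H V) (hF : Pool.Agent.Helper33.Iso.FreeOff H V) (h : H)
    (hh : h ≠ 1) : ∃ c : ℝ, 0 < c ∧ ∀ x : V, c * ‖x‖ ≤ ‖h • x - x‖ := by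
  let T : V →ₗ[ℝ] V := (lin hV h).toLinearMap - LinearMap.id
  have hT : ∀ x : V, T x = h • x - x := fun x => rfl
  have hker : LinearMap.ker T = ⊥ := by
    rw [LinearMap.ker_eq_bot']
    intro x hx
    rw [hT, sub_eq_zero] at hx
    exact hF h hh x hx
  obtain ⟨K, hK, hA⟩ := T.exists_antilipschitzWith hker
  have hK' : (0 : ℝ) < K := by exact_mod_cast hK
  refine ⟨(K : ℝ)⁻¹, inv_pos.2 hK', fun x => ?_⟩
  have h1 := hA.le_mul_dist x 0
  rw [dist_zero_right, map_zero, dist_zero_right, hT] at h1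
  rw [inv_mul_le_iff₀ hK']
  exact h1

theorem gGAP : Pool.Agent.Helper33.Iso.GAP.{u, w} := by
  intro H _ _ V _ _ _ _ hV hF
  classical
  have hex : ∀ h : H, ∃ c : ℝ, 0 < c ∧ (h ≠ 1 → ∀ x : V, c * ‖x‖ ≤ ‖h • x - x‖) := by
    intro h
    by_cases hh : h = 1
    · exact ⟨1, one_pos, fun h' => absurd hh h'⟩
    · obtain ⟨c, hc, hx⟩ := gap_one H V hV hF h hh
      exact ⟨c, hc, fun _ => hx⟩
  choose f hf0 hf using hex
  obtain ⟨h0, hmin⟩ := Finite.exists_min f
  refine ⟨min (f h0) 2, lt_min (hf0 h0) two_pos, min_le_right _ _, fun h hh x => ?_⟩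
  refine le_trans ?_ (hf h hh x)
  exact mul_le_mul_of_nonneg_right ((min_le_left _ _).trans (hmin h)) (norm_nonneg x)

end Pool.Agent.Helper45.Iso
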